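import Pool.Agent.H32.GWb

namespace Pool.Agent.Results.MP_34b196_pr.Continuum

open MeasureTheory Pool.Agent.H32.GW
open scoped ENNReal

theorem result (X : Type) [Countable X] (μ : X → PMF (X →₀ ℕ)) :
    (∃ (Ω : Type) (_ : MeasurableSpace Ω) (P : Measure Ω) (ξ : ℕ × X × ℕ → Ω → X →₀ ℕ),
      IsGW P μ ξ) ∧
    ∀ (Ω : Type) [MeasurableSpace Ω] (P : Measure Ω) (ξ : ℕ × X × ℕ → Ω → X →₀ ℕ),
      IsGW P μ ξ → qGlob P ξ ≠ qPart P ξ →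
      Cardinal.mk {s : X → ℝ≥0∞ | s ≤ 1 ∧ G μ s = s ∧ qGlob P ξ ≤ s ∧ s ≤ qPart P ξ} =
        Cardinal.continuum := by
  refine ⟨exists_model μ, fun Ω _ P ξ h hne => ?_⟩
  haveI := h.indep.isProbabilityMeasure
  rw [← h.main hne]
  congr 2
  ext s
  exact ⟨fun hs => hs.2, fun hs => ⟨hs.2.2.trans fun _ => prob_le_one, hs⟩⟩

end Pool.Agent.Results.MP_34b196_pr.Continuum
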